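import Pool.Agent.L0h1.F3R.Iso
import Pool.Agent.L0h1.EV.All7
import Pool.Agent.L0h4.T3.Cvm

/-!
# The rank form for the twists of `y² = x³ + 1` by `D` and by `-3 D`, `D ≡ 1 mod 4`
-/

set_option autoImplicit false
set_option maxHeartbeats 4000000
set_option linter.unusedSectionVars false

open scoped Classical

namespace Pool.Agent.L0h1.F3R

open Pool.Agent.L0h1.KD Pool.Agent.L0h86.F3
open Pool.Agent.L0h86.F1 (WM AdmM M1 M2)
open Pool.Agent.TH841.NF.D (Sha)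
open WeierstrassCurve

/-- **the algebraic criterion** -/
theorem tt_mM {D : ℕ} (h : AdmM D) (h1 : D ≠ 1) :
    (Finite (WM ℚ D).toAffine.Point ∧ ∀ x : Sha (WM ℚ D), x + x = 0 → x = 0) ↔
      (mM D).det ≠ 0 := by
  obtain ⟨ϖ, hd⟩ := adm_exists_dt h
  rw [← cr_iff hd (adm_prod h) h.m4]
  constructor
  · rintro ⟨h2, h3⟩
    by_contra h4
    obtain ⟨y, hy, hy2⟩ := Pool.Agent.L0h4.T3.convM hd (adm_prod h) h.m4 h4 h2
    exact hy (h3 y hy2)
  · intro hc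
    obtain ⟨-, -, -, c4, -⟩ := coreM h h1 hd
    obtain ⟨h2, h3⟩ := c4 hc
    refine ⟨h2, fun x hx => h3 1 x ?_⟩
    rw [pow_one, two_nsmul]
    exact hx

/-- **the rank form for the twists by `D` and by `-3 D`** -/
theorem rank_M3 {D : ℕ} (h : AdmM D) (h1 : D ≠ 1) (hdet : (mM D).det ≠ 0) {m : ℤ}
    (hm : m = D ∨ m = -3 * D) :
    ∃ F : ℂ → ℂ, Differentiable ℂ F ∧
      (∀ s : ℂ, (3 : ℝ) / 2 < s.re → HasProd (tg 0 (m ^ 3) s) (F s)) ∧
      F 1 ≠ 0 ∧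
      Finite (WeierstrassCurve.Affine.Point (WeierstrassCurve.toAffine
      ({ a₁ := 0, a₂ := 0, a₃ := 0, a₄ := ((0 : ℤ) : ℚ),
         a₆ := ((m ^ 3 : ℤ) : ℚ) } : WeierstrassCurve ℚ))) := by
  obtain ⟨F, k1, k2, k3, k4⟩ := rank_M h h1 hdet
  rcases hm with rfl | rfl
  · exact ⟨F, k1, k2, k3, k4⟩
  · refine ⟨F, k1, fun s hs => ?_, k3, ?_⟩
    · have h5 := k2 s hs
      refine (congrArg (fun g => HasProd g (F s)) (funext fun p => ?_)).mp h5
      exact (tg_three (D : ℤ) s p).symm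
    · have hD0 : (D : ℤ) ≠ 0 := by exact_mod_cast h.sf.ne_zero
      have h5 := Pool.Agent.L0h1.EV.set_of_pt (a := 0) (b := (D : ℤ) ^ 3) (by
        have e : (4 * (0 : ℤ) ^ 3 + 27 * ((D : ℤ) ^ 3) ^ 2 : ℤ) = 27 * (D : ℤ) ^ 6 := by ring
        rw [e]
        exact mul_ne_zero (by norm_num) (pow_ne_zero _ hD0)) k4
      have h6 : (Em ((D : ℤ) : ℚ)).Finite := by
        refine h5.subset ?_
        rintro ⟨x, y⟩ hq
        have hq' : y ^ 2 = x ^ 3 + ((D : ℤ) : ℚ) ^ 3 := hq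
        show y ^ 2 = x ^ 3 + ((0 : ℤ) : ℚ) * x + (((D : ℤ) ^ 3 : ℤ) : ℚ)
        push_cast
        push_cast at hq'
        linear_combination hq'
      have h7 := fin3 _ h6
      refine Pool.Agent.L0h1.EV.pt_of_set (h7.subset ?_)
      rintro ⟨x, y⟩ hq
      have hq' : y ^ 2 = x ^ 3 + ((0 : ℤ) : ℚ) * x + (((-3 * (D : ℤ)) ^ 3 : ℤ) : ℚ) := hq
      show y ^ 2 = x ^ 3 + (-3 * ((D : ℤ) : ℚ)) ^ 3
      push_cast
      push_cast at hq'
      linear_combination hq'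

end Pool.Agent.L0h1.F3R
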