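import Pool.Agent.L0h1.F3R.RankN

/-!
# The rank form for the twists of `y² = x³ + 1` by `D`, `-D`, `3 D`, `-3 D`, `D ≡ 1 mod 4`
-/

set_option autoImplicit false
set_option maxHeartbeats 4000000
set_option linter.unusedSectionVars false

open scoped Classical

namespace Pool.Agent.L0h1.F3R

open Pool.Agent.L0h1.KD Pool.Agent.L0h86.F3 Pool.Agent.L0h4.T4
open Pool.Agent.L0h86.F1 (WM AdmM M1 M2)
open Pool.Agent.TH841.NF.D (Sha)
open WeierstrassCurve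

/-- the rank form, order and rank `0`, for `y² = x³ + m³` -/
def RZ (m : ℤ) : Prop := ∃ F : ℂ → ℂ, Differentiable ℂ F ∧
  (∀ s : ℂ, (3 : ℝ) / 2 < s.re → HasProd (tg 0 (m ^ 3) s) (F s)) ∧
  F 1 ≠ 0 ∧
  Finite (WeierstrassCurve.Affine.Point (WeierstrassCurve.toAffine
  ({ a₁ := 0, a₂ := 0, a₃ := 0, a₄ := ((0 : ℤ) : ℚ),
     a₆ := ((m ^ 3 : ℤ) : ℚ) } : WeierstrassCurve ℚ)))

/-- the isogeny of degree three -/
theorem RZ_three {m : ℤ} (hm : m ≠ 0) (h : RZ m) : RZ (-3 * m) := by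
  obtain ⟨F, k1, k2, k3, k4⟩ := h
  refine ⟨F, k1, fun s hs => ?_, k3, ?_⟩
  · have h5 := k2 s hs
    refine (congrArg (fun g => HasProd g (F s)) (funext fun p => ?_)).mp h5
    exact (tg_three m s p).symm
  · have h5 := Pool.Agent.L0h1.EV.set_of_pt (a := 0) (b := m ^ 3) (by
      have e : (4 * (0 : ℤ) ^ 3 + 27 * (m ^ 3) ^ 2 : ℤ) = 27 * m ^ 6 := by ring
      rw [e]
      exact mul_ne_zero (by norm_num) (pow_ne_zero _ hm)) k4
    have h6 : (Em (m : ℚ)).Finite := by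
      refine h5.subset ?_
      rintro ⟨x, y⟩ hq
      have hq' : y ^ 2 = x ^ 3 + (m : ℚ) ^ 3 := hq
      show y ^ 2 = x ^ 3 + ((0 : ℤ) : ℚ) * x + ((m ^ 3 : ℤ) : ℚ)
      push_cast
      linear_combination hq'
    have h7 := fin3 _ h6
    refine Pool.Agent.L0h1.EV.pt_of_set (h7.subset ?_)
    rintro ⟨x, y⟩ hq
    have hq' : y ^ 2 = x ^ 3 + ((0 : ℤ) : ℚ) * x + (((-3 * m) ^ 3 : ℤ) : ℚ) := hq
    show y ^ 2 = x ^ 3 + (-3 * (m : ℚ)) ^ 3
    push_cast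
    push_cast at hq'
    linear_combination hq'

/-- **the rank form for the twists by `D`, `-D`, `3 D`, `-3 D`** -/
theorem rank_N3 (hDe : S_DESN) {D : ℕ} (h : AdmM D) (h1 : D ≠ 1) (hdet : (mM D).det ≠ 0) {m : ℤ}
    (hm : m = D ∨ m = -D ∨ m = 3 * D ∨ m = -3 * D) : RZ m := by
  have hD0 : (D : ℤ) ≠ 0 := by exact_mod_cast h.sf.ne_zero
  have a1 : RZ (D : ℤ) := rank_M h h1 hdet
  have a2 : RZ (-(D : ℤ)) := rank_N hDe h h1 hdet
  rcases hm with rfl | rfl | rfl | rfl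
  · exact a1
  · exact a2
  · have := RZ_three (neg_ne_zero.2 hD0) a2
    have e : (-3 * -(D : ℤ)) = 3 * D := by ring
    rwa [e] at this
  · exact RZ_three hD0 a1

end Pool.Agent.L0h1.F3R
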