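import Pool.Agent.L0h4.T4.Def

/-!
# The alternating sum of the Eisenstein numbers at the points of order four times odd
-/

set_option autoImplicit false
set_option linter.unusedSectionVars false

open Filter
open scoped Topology PeriodPair

namespace Pool.Agent.L0h1.F3R

open H667R3 Pool.Agent.W192.HK Pool.Agent.TH936.CM Pool.Agent.TH936.PU
open Pool.Agent.Y696 Pool.Agent.Y715.T.Lat
open Pool.Agent.Y715.T.Three (lam lam_ne' lam_sq)
open Pool.Agent.L0h86.F3 Pool.Agent.L0h4.T4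

variable {L : PeriodPair} {Ω : ℂ} {Γ : Type*} [LinearOrderedCommGroupWithZero Γ]
  {v : Valuation ℂ Γ}

/-- one translation by a point of order two -/
lemma ev_two (hC : Cur L Ω) {w : ℂ} (hw : Tor L w) (h2 : 2 * w ∉ L.lattice) {u c : eis}
    (huc : u * c = 1) :
    ℘[L] w - (c : ℂ) ^ 2 * ℘[L] (Ω / 2) ≠ 0 ∧
    Ev Ω (w + (u : ℂ) * (Ω / 2)) = Ev Ω w + (1 / 2) *
      (℘'[L] w / (℘[L] w - (c : ℂ) ^ 2 * ℘[L] (Ω / 2))) := by
  have hL := hC.lat
  have hu : IsUnit u := IsUnit.of_mul_eq_one c huc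
  have huc' : (u : ℂ) * c = 1 := by
    have := congrArg (fun t : eis => (t : ℂ)) huc
    push_cast at this
    exact this
  have hui : (u : ℂ)⁻¹ = c := (eq_inv_of_mul_eq_one_right huc').symm
  have hw0 : w ∉ L.lattice := two_mul_notMem_of L h2
  have hTu : Tor L ((u : ℂ) * (Ω / 2)) := (half_tor hL).mul hL u
  have n1 : (u : ℂ) * (Ω / 2) ∉ L.lattice := by rw [lat_unit hL hu]; exact half_notMem hL
  have hwO := Om_mem hL u
  have n2 : w + (u : ℂ) * (Ω / 2) ∉ L.lattice := by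
    intro h
    apply h2
    have h3 := sub_mem (add_mem h h) hwO
    convert h3 using 1
    ring
  have n3 : w - (u : ℂ) * (Ω / 2) ∉ L.lattice := by
    intro h
    apply h2
    have h3 := add_mem (add_mem h h) hwO
    convert h3 using 1
    ring
  have e1 : ℘[L] ((u : ℂ) * (Ω / 2)) = (c : ℂ) ^ 2 * ℘[L] (Ω / 2) := by
    rw [wp_unit hL hu, ← inv_pow, hui]
  have hne := wp_sub_ne hw0 n1 n2 n3
  rw [e1] at hne
  refine ⟨hne, ?_⟩
  have h6 := Ev_sec hL hw hTu hw0 n1 n2 n3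
  have h7 : Ev Ω (w - (u : ℂ) * (Ω / 2)) = Ev Ω (w + (u : ℂ) * (Ω / 2)) := by
    apply Ev_per hL
    have h8 := neg_mem hwO
    convert h8 using 1
    ring
  rw [h7] at h6
  unfold Dd at h6
  rw [e1] at h6
  linear_combination (1 / 2) * h6

/-- **the closed form** -/
theorem G1_eval (hC : Cur L Ω) {w : ℂ} (hw : Tor L w) (h2 : 2 * w ∉ L.lattice) :
    ℘'[L] w ≠ 0 ∧ G1 Ω w = -2 * (℘[L] w ^ 2 - 2 * ℘[L] (Ω / 2) * ℘[L] w -
      2 * ℘[L] (Ω / 2) ^ 2) / ℘'[L] w := by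
  have o3 := omr_cube
  obtain ⟨k1, f1⟩ := ev_two hC hw h2 (u := 1) (c := 1) (one_mul 1)
  obtain ⟨k2, f2⟩ := ev_two hC hw h2 (u := omr) (c := omr ^ 2) (by rw [← o3]; ring)
  obtain ⟨k3, f3⟩ := ev_two hC hw h2 (u := omr ^ 2) (c := omr) (by rw [← o3]; ring)
  push_cast at k1 k2 k3 f1 f2 f3
  rw [omr_coe] at k2 k3 f2 f3
  rw [one_pow, one_mul] at k1
  rw [one_mul, one_pow, one_mul] at f1
  have e4 : (om ^ 2) ^ 2 = om := by linear_combination om * om_cube
  rw [e4] at k2 f2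
  have g2 : Ω * om / 2 = om * (Ω / 2) := by ring
  have g3 : Ω * om ^ 2 / 2 = om ^ 2 * (Ω / 2) := by ring
  unfold G1
  rw [g2, g3, f1, f2, f3]
  have h4e := e_cube hC
  have hode := hC.ode (two_mul_notMem_of L h2)
  set X := ℘[L] w
  set Y := ℘'[L] w
  set e := ℘[L] (Ω / 2)
  set E := Ev Ω w
  have hD : (X - e) * (X - om ^ 2 * e) * (X - om * e) = X ^ 3 - e ^ 3 := by
    linear_combination (-e * X ^ 2 + om * e ^ 2 * X - (om - 1) * e ^ 3) * om_sq
  have hD4 : 4 * ((X - e) * (X - om ^ 2 * e) * (X - om * e)) = Y ^ 2 := by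
    rw [hD]
    linear_combination -h4e - hode
  have hY : Y ≠ 0 := by
    intro h0
    rw [h0] at hD4
    have h5 := mul_ne_zero (mul_ne_zero k1 k3) k2
    apply h5
    linear_combination hD4 / 4
  refine ⟨hY, ?_⟩
  have hS : 1 / (X - e) - 1 / (X - om * e) - 1 / (X - om ^ 2 * e) =
      -4 * (X ^ 2 - 2 * e * X - 2 * e ^ 2) / Y ^ 2 := by
    rw [← hD4]
    have hN : (X - om ^ 2 * e) * (X - om * e) - (X - e) * (X - om ^ 2 * e) -
        (X - e) * (X - om * e) = -(X ^ 2 - 2 * e * X - 2 * e ^ 2) := by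
      linear_combination (e ^ 2 * (om - 2)) * om_sq
    have aux : ∀ a b c : ℂ, a ≠ 0 → b ≠ 0 → c ≠ 0 → 1 / a - 1 / b - 1 / c =
        4 * (c * b - a * c - a * b) / (4 * (a * c * b)) := by
      intro a b c ha hb hc
      field_simp
    rw [aux _ _ _ k1 k2 k3, hN]
    ring
  have hfin : E + (E + 1 / 2 * (Y / (X - e))) - (E + 1 / 2 * (Y / (X - om * e))) -
      (E + 1 / 2 * (Y / (X - om ^ 2 * e))) =
      (Y / 2) * (1 / (X - e) - 1 / (X - om * e) - 1 / (X - om ^ 2 * e)) := by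
    ring
  rw [hfin, hS]
  field_simp
  ring

lemma v_e_gt (hC : Cur L Ω) (t2 : v 2 < 1) : 1 < v (℘[L] (Ω / 2)) := by
  have h1 : v 2 ^ 2 * v (℘[L] (Ω / 2)) ^ 3 = 1 := by
    have := congrArg v (e_cube hC)
    rw [map_mul, map_pow, Valuation.map_neg, map_one] at this
    rw [← this, ← map_pow]
    norm_num
  by_contra h
  push Not at h
  have h2 : v 2 ^ 2 * v (℘[L] (Ω / 2)) ^ 3 < 1 :=
    mul_lt_one_of_lt_of_le (pow_lt_one₀ zero_le t2 two_ne_zero) (pow_le_one₀ zero_le h)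
  exact h2.ne h1

lemma v_2e2_gt (hC : Cur L Ω) (t2 : v 2 < 1) : 1 < v (2 * ℘[L] (Ω / 2) ^ 2) := by
  have h1 : v 2 ^ 2 * v (℘[L] (Ω / 2)) ^ 3 = 1 := by
    have := congrArg v (e_cube hC)
    rw [map_mul, map_pow, Valuation.map_neg, map_one] at this
    rw [← this, ← map_pow]
    norm_num
  have h2 : v (2 * ℘[L] (Ω / 2) ^ 2) ^ 2 = v (℘[L] (Ω / 2)) := by
    rw [map_mul, map_pow, mul_pow, ← pow_mul]
    calc v 2 ^ 2 * v (℘[L] (Ω / 2)) ^ (2 * 2) =
          (v 2 ^ 2 * v (℘[L] (Ω / 2)) ^ 3) * v (℘[L] (Ω / 2)) := by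
          rw [mul_assoc, ← pow_succ]
      _ = _ := by rw [h1, one_mul]
  by_contra h
  push Not at h
  have h3 : v (2 * ℘[L] (Ω / 2) ^ 2) ^ 2 ≤ 1 := pow_le_one₀ zero_le h
  rw [h2] at h3
  exact absurd (v_e_gt hC t2) (not_lt.2 h3)

/-- the values at the points of order four times an odd number are integral -/
lemma wp_four (hC : Cur L Ω) (t2 : v 2 < 1) {N : eis} (hN : N ≠ 0)
    (hodd : IsCoprime (2 : eis) N) {y : eis} (hy : y ∉ sp N) {w : ℂ} (hw : 4 * w = Ω * y / N) :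
    2 * w ∉ L.lattice ∧ v (℘[L] w) ≤ 1 ∧ v (℘'[L] w - 1) < 1 := by
  have hL := hC.lat
  have h4 : 4 * w ∉ L.lattice := by rwa [hw, div_mem_iff hL hN]
  have h22 : 2 * (2 * w) ∉ L.lattice := by
    have e : 2 * (2 * w) = 4 * w := by ring
    rwa [e]
  have h2 : 2 * w ∉ L.lattice := two_mul_notMem_of L h22
  have hX : v (℘[L] w) ≤ 1 := by
    by_contra h
    push Not at h
    have k1 := dup_lt hC t2 h2 h
    have k2 := dup_lt hC t2 h22 (h.trans k1)
    have e : 2 * (2 * w) = 4 * w := by ring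
    rw [e, hw] at k2
    have k3 := wp_odd hC t2 hN hodd y hy
    exact absurd ((h.trans k1).trans k2) (not_lt.2 k3)
  refine ⟨h2, hX, ?_⟩
  have hode := hC.ode (two_mul_notMem_of L h2)
  set X := ℘[L] w
  set Y := ℘'[L] w
  have hW : ((Y - 1) / 2) * ((Y - 1) / 2 + 1) = X ^ 3 := by linear_combination hode / 4
  have hWv : v ((Y - 1) / 2) ≤ 1 := by
    by_contra hc
    push Not at hc
    have h2 : v ((Y - 1) / 2 + 1) = v ((Y - 1) / 2) := by
      have h9 : v 1 < v ((Y - 1) / 2) := by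
        rw [map_one]
        exact hc
      exact v.map_add_eq_of_lt_left h9
    have h3 := congrArg v hW
    rw [map_mul, h2, map_pow] at h3
    have h4 : 1 < v ((Y - 1) / 2) * v ((Y - 1) / 2) := one_lt_mul'' hc hc
    rw [h3] at h4
    exact absurd (pow_le_one' hX 3) (not_le.2 h4)
  have e : Y - 1 = 2 * ((Y - 1) / 2) := by ring
  rw [e]
  exact vm_lt t2 hWv

/-- **the value of the alternating sum** -/
theorem t_EV4 : S_EV4 := by
  intro Γ _ v t2 L Ω hC n hn hodd hn1 x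
  have hL := hC.lat
  have hN : la * n ≠ 0 := mul_ne_zero la_ne hn
  have hNo : IsCoprime (2 : eis) (la * n) := la_odd.mul_right hodd
  have h1 := coe_ne la_ne
  have h2 := coe_ne hn
  have hy : (n + 4 * la * x : eis) ∉ sp (la * n) := by
    intro h
    rw [Ideal.mem_span_singleton] at h
    have h3 : la ∣ n + 4 * la * x := (Dvd.intro _ rfl).trans h
    have h4 : la ∣ n := (dvd_add_left ⟨4 * x, by ring⟩).1 h3
    exact la_nu (hn1.cop_la.isUnit_of_dvd' dvd_rfl h4)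
  set w := P1 Ω + Ω * x / n with hwd
  have c4 : ((4 : eis) : ℂ) = 4 := rfl
  have hw : 4 * w = Ω * ((n + 4 * la * x : eis) : ℂ) / ((la * n : eis) : ℂ) := by
    rw [hwd]
    unfold P1
    push_cast
    rw [c4]
    field_simp
  have hwt : Tor L w := by
    have h5 : (4 * la : eis) ≠ 0 := by
      have e : (4 * la : eis) = 2 * (2 * la) := by ring
      rw [e]
      exact mul_ne_zero two_ne f6_ne
    have h6 := Tor.of hL h5 1
    have e : Ω * ((1 : eis) : ℂ) / ((4 * la : eis) : ℂ) = P1 Ω := by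
      unfold P1
      push_cast
      ring
    rw [e] at h6
    exact h6.add hL (Tor.of hL hn x)
  obtain ⟨k1, k2, k3⟩ := wp_four hC t2 hN hNo hy hw
  obtain ⟨hY, hG⟩ := G1_eval hC hwt k1
  unfold F1v
  rw [hG]
  have he := e_ne hC
  have g1 := v_e_gt hC t2
  have g2 := v_2e2_gt hC t2
  have hYv := v_near k3
  set X := ℘[L] w
  set Y := ℘'[L] w
  set e := ℘[L] (Ω / 2)
  refine R4.one.congr ?_
  have e1 : -2 * (X ^ 2 - 2 * e * X - 2 * e ^ 2) / Y / (4 * e ^ 2) - 1 =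
      (-(Y - 1) + (X / e - X ^ 2 / (2 * e ^ 2))) / Y := by
    field_simp
    ring
  rw [e1, map_div₀, hYv, div_one]
  have g0 : v e ≠ 0 := (zero_lt_one.trans g1).ne'
  have g00 : v (2 * e ^ 2) ≠ 0 := (zero_lt_one.trans g2).ne'
  refine va_lt (by rwa [Valuation.map_neg]) (v.map_sub_lt ?_ ?_)
  · rw [map_div₀, div_lt_one₀ (zero_lt_one.trans g1)]
    exact k2.trans_lt g1
  · rw [map_div₀, div_lt_one₀ (zero_lt_one.trans g2), map_pow]
    exact (pow_le_one₀ zero_le k2).trans_lt g2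

end Pool.Agent.L0h1.F3R
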