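import Pool.Agent.L0h1.F3R.Rank

/-!
# The isogeny of degree `3` between `y² = x³ + m³` and `y² = x³ - 27 m³`
-/

set_option autoImplicit false

namespace Pool.Agent.L0h1.F3R

open Pool.Agent.Y698 Pool.Agent.L0h1.KD Pool.Agent.L0h4.T3
open scoped Classical

/-- the points of `y² = x³ + m³` -/
def Em {k : Type*} [Field k] (m : k) : Set (k × k) := {q | q.2 ^ 2 = q.1 ^ 3 + m ^ 3}

lemma fin_x {k : Type*} [Field k] (m : k) {A : Set k} (hA : A.Finite) :
    {q ∈ Em m | q.1 ∈ A}.Finite := by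
  have h1 : {q ∈ Em m | q.1 ∈ A} ⊆ ⋃ a ∈ A, (fun y => (a, y)) '' {y : k | y ^ 2 = a ^ 3 + m ^ 3} := by
    rintro ⟨x, y⟩ ⟨h2, h3⟩
    simp only [Set.mem_iUnion]
    exact ⟨x, h3, y, h2, rfl⟩
  refine (hA.biUnion fun a _ => Set.Finite.image _ ?_).subset h1
  set c := a ^ 3 + m ^ 3
  by_cases h : ∃ y0 : k, y0 ^ 2 = c
  · obtain ⟨y0, hy0⟩ := h
    refine (Set.toFinite {y0, -y0}).subset fun y hy => ?_
    have h4 : (y - y0) * (y + y0) = 0 := by
      have : y ^ 2 = c := hy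
      linear_combination this - hy0
    rcases mul_eq_zero.1 h4 with h5 | h5
    · left; linear_combination h5
    · right; show y = -y0; linear_combination h5
  · convert Set.finite_empty
    ext y
    exact ⟨fun hy => h ⟨y, hy⟩, fun hy => hy.elim⟩

open Polynomial in
lemma fin_nu {k : Type*} [Field k] (c t : k) : {x : k | x ^ 3 + c - t * x ^ 2 = 0}.Finite := by
  set Q : k[X] := C t * X ^ 2 - C c with hQ
  have hd : Q.natDegree ≤ 2 := by
    rw [hQ]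
    compute_degree
  have h1 : {x : k | x ^ 3 + c - t * x ^ 2 = 0} ⊆ {x | IsRoot (X ^ 3 - Q) x} := by
    intro x hx
    have hx' : x ^ 3 + c - t * x ^ 2 = 0 := hx
    show eval x (X ^ 3 - Q) = 0
    rw [hQ]
    simp only [eval_sub, eval_mul, eval_pow, eval_X, eval_C]
    linear_combination hx'
  refine (Polynomial.finite_setOfPred_isRoot ?_).subset h1
  intro h0
  have h2 : X ^ 3 = Q := by linear_combination h0
  have h3 : (X ^ 3 : k[X]).natDegree = 3 := natDegree_X_pow 3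
  rw [h2] at h3
  omega

/-- **the isogeny**: if `y² = x³ + m³` has finitely many points then so does `y² = x³ - 27 m³` -/
theorem fin3 {k : Type*} [Field k] [CharZero k] (m : k) (h : (Em m).Finite) :
    (Em (-3 * m)).Finite := by
  set n : k := -3 * m with hn
  set T : Set k := Prod.fst '' Em m with hT
  have hTf : T.Finite := h.image _
  have h1 : Em n ⊆ {q ∈ Em n | q.1 ∈ ({0} : Set k)} ∪
      {q ∈ Em n | q.1 ∈ ⋃ t ∈ T, {x : k | x ^ 3 + 4 * n ^ 3 - (9 * t) * x ^ 2 = 0}} := by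
    rintro ⟨x, y⟩ hq
    have hq' : y ^ 2 = x ^ 3 + n ^ 3 := hq
    by_cases h0 : x = 0
    · exact Or.inl ⟨hq, h0⟩
    · right
      refine ⟨hq, ?_⟩
      simp only [Set.mem_iUnion]
      refine ⟨(x ^ 3 + 4 * n ^ 3) / x ^ 2 / 9, ⟨((x ^ 3 + 4 * n ^ 3) / x ^ 2 / 9,
        y * (x ^ 3 - 8 * n ^ 3) / x ^ 3 / 27), ?_, rfl⟩, ?_⟩
      · show (y * (x ^ 3 - 8 * n ^ 3) / x ^ 3 / 27) ^ 2 =
          ((x ^ 3 + 4 * n ^ 3) / x ^ 2 / 9) ^ 3 + m ^ 3
        have hm : m = -n / 3 := by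
          rw [hn]
          field_simp
        rw [hm]
        have h4 : (y * (x ^ 3 - 8 * n ^ 3) / x ^ 3 / 27) ^ 2 =
            y ^ 2 * (x ^ 3 - 8 * n ^ 3) ^ 2 / (729 * x ^ 6) := by
          field_simp
          norm_num
        rw [h4, hq']
        field_simp
        ring
      · show x ^ 3 + 4 * n ^ 3 - 9 * ((x ^ 3 + 4 * n ^ 3) / x ^ 2 / 9) * x ^ 2 = 0
        field_simp
        ring
  refine Set.Finite.subset (Set.Finite.union (fin_x n (Set.finite_singleton 0)) (fin_x n ?_)) h1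
  exact hTf.biUnion fun t _ => fin_nu _ _

/-- the numbers of the points -/
theorem count_eq {p : ℕ} (hp : p.Prime) (h2 : p ≠ 2) (h3 : p ≠ 3) {m : ℤ} (hm : ¬ (p : ℤ) ∣ m) :
    Nat.card {q : ZMod p × ZMod p // q.2 ^ 2 = q.1 ^ 3 + ((0 : ℤ) : ZMod p) * q.1 +
      (((-3 * m) ^ 3 : ℤ) : ZMod p)} =
    Nat.card {q : ZMod p × ZMod p // q.2 ^ 2 = q.1 ^ 3 + ((0 : ℤ) : ZMod p) * q.1 +
      ((m ^ 3 : ℤ) : ZMod p)} := by
  have _ : Fact p.Prime := ⟨hp⟩
  have hF : ringChar (ZMod p) ≠ 2 := by rwa [ZMod.ringChar_zmod_n]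
  have hm0 : ((m : ℤ) : ZMod p) ≠ 0 := by rwa [Ne, ZMod.intCast_zmod_eq_zero_iff_dvd]
  have h30 : (-3 : ZMod p) ≠ 0 := by
    intro h
    have h' : ((3 : ℕ) : ZMod p) = 0 := by push_cast; linear_combination -h
    rw [ZMod.natCast_eq_zero_iff] at h'
    exact h3 ((Nat.prime_dvd_prime_iff_eq hp (by norm_num)).1 h')
  have t1 := count_tw hF (0 : ZMod p) ((m : ZMod p) ^ 3) h30
  have t2 := count_tw hF (0 : ZMod p) (1 : ZMod p) hm0
  have e1 : Nat.card {x : ZMod p × ZMod p // x.2 ^ 2 = x.1 ^ 3 +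
      0 * (-3) ^ 2 * x.1 + (m : ZMod p) ^ 3 * (-3) ^ 3} =
      Nat.card {q : ZMod p × ZMod p // q.2 ^ 2 = q.1 ^ 3 +
        ((0 : ℤ) : ZMod p) * q.1 + (((-3 * m) ^ 3 : ℤ) : ZMod p)} := by
    refine Nat.card_congr (Equiv.subtypeEquivRight fun q => ?_)
    push_cast
    constructor
    · intro h
      linear_combination h
    · intro h
      linear_combination h
  have e2 : Nat.card {x : ZMod p × ZMod p // x.2 ^ 2 = x.1 ^ 3 +
      0 * x.1 + (m : ZMod p) ^ 3} =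
      Nat.card {q : ZMod p × ZMod p // q.2 ^ 2 = q.1 ^ 3 +
        ((0 : ℤ) : ZMod p) * q.1 + ((m ^ 3 : ℤ) : ZMod p)} := by
    refine Nat.card_congr (Equiv.subtypeEquivRight fun q => ?_)
    push_cast
    rfl
  have e3 : Nat.card {x : ZMod p × ZMod p // x.2 ^ 2 = x.1 ^ 3 +
      0 * (m : ZMod p) ^ 2 * x.1 + 1 * (m : ZMod p) ^ 3} =
      Nat.card {q : ZMod p × ZMod p // q.2 ^ 2 = q.1 ^ 3 +
        ((0 : ℤ) : ZMod p) * q.1 + ((m ^ 3 : ℤ) : ZMod p)} := by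
    refine Nat.card_congr (Equiv.subtypeEquivRight fun q => ?_)
    push_cast
    constructor
    · intro h
      linear_combination h
    · intro h
      linear_combination h
  have e4 : Nat.card {x : ZMod p × ZMod p // x.2 ^ 2 = x.1 ^ 3 + 0 * x.1 + 1} = N36 p := by
    unfold N36
    refine Nat.card_congr (Equiv.subtypeEquivRight fun q => ?_)
    rw [zero_mul, add_zero]
  rw [e1, e2, ZMod.card] at t1
  rw [e3, e4, ZMod.card] at t2
  have h13 := Pool.Agent.L0h86.F1.sq_m3 hp h2 h3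
  by_cases hs : IsSquare (-3 : ZMod p)
  · rw [(quadraticChar_one_iff_isSquare h30).2 hs, one_mul] at t1
    have : ((Nat.card {q : ZMod p × ZMod p // q.2 ^ 2 = q.1 ^ 3 +
        ((0 : ℤ) : ZMod p) * q.1 + (((-3 * m) ^ 3 : ℤ) : ZMod p)} : ℕ) : ℤ) =
        ((Nat.card {q : ZMod p × ZMod p // q.2 ^ 2 = q.1 ^ 3 +
        ((0 : ℤ) : ZMod p) * q.1 + ((m ^ 3 : ℤ) : ZMod p)} : ℕ) : ℤ) := by linarith
    exact_mod_cast this
  · have hmod : p % 3 = 2 := by
      have h4 : ¬ p % 3 = 1 := fun h => hs (h13.2 h)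
      have h5 : p % 3 ≠ 0 := by
        intro h
        exact h3 ((Nat.prime_dvd_prime_iff_eq (by norm_num) hp).1 (Nat.dvd_of_mod_eq_zero h)).symm
      omega
    have hb := b6_inert hp hmod
    unfold b6 at hb
    rw [if_neg (by rintro (h | h) <;> contradiction)] at hb
    rw [hb, mul_zero] at t2
    rw [t2, mul_zero] at t1
    have : ((Nat.card {q : ZMod p × ZMod p // q.2 ^ 2 = q.1 ^ 3 +
        ((0 : ℤ) : ZMod p) * q.1 + (((-3 * m) ^ 3 : ℤ) : ZMod p)} : ℕ) : ℤ) =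
        ((Nat.card {q : ZMod p × ZMod p // q.2 ^ 2 = q.1 ^ 3 +
        ((0 : ℤ) : ZMod p) * q.1 + ((m ^ 3 : ℤ) : ZMod p)} : ℕ) : ℤ) := by linarith
    exact_mod_cast this

/-- **the Euler factors** -/
theorem tg_three (m : ℤ) (s : ℂ) (p : ℕ) : tg 0 ((-3 * m) ^ 3) s p = tg 0 (m ^ 3) s p := by
  unfold tg
  by_cases hp : p.Prime
  · have hpi : Prime (p : ℤ) := Nat.prime_iff_prime_int.1 hp
    have hc : (p : ℤ) ∣ 2 * (-4 * (0 : ℤ) ^ 3 - 27 * ((-3 * m) ^ 3) ^ 2) ↔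
        (p : ℤ) ∣ 2 * (-4 * (0 : ℤ) ^ 3 - 27 * (m ^ 3) ^ 2) := by
      rw [disc0, disc0, dvd_neg, dvd_neg]
      have e : (2 : ℤ) * (3 ^ 3 * ((-3 * m) ^ 3) ^ 2) = 3 ^ 6 * (2 * (3 ^ 3 * (m ^ 3) ^ 2)) := by ring
      rw [e]
      constructor
      · intro h
        rcases hpi.dvd_or_dvd h with h1 | h1
        · have h2 : (p : ℤ) ∣ 3 := hpi.dvd_of_dvd_pow h1
          exact Dvd.dvd.mul_left (Dvd.dvd.mul_right (h2.trans (dvd_pow_self 3 (by norm_num))) _) _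
        · exact h1
      · intro h
        exact Dvd.dvd.mul_left h _
    by_cases h : (p : ℤ) ∣ 2 * (-4 * (0 : ℤ) ^ 3 - 27 * (m ^ 3) ^ 2)
    · rw [if_neg (fun h' => h'.2 (hc.2 h)), if_neg (fun h' => h'.2 h)]
    · rw [if_pos ⟨hp, fun h' => h (hc.1 h')⟩, if_pos ⟨hp, h⟩]
      rw [disc0, dvd_neg] at h
      have h2 : p ≠ 2 := by
        rintro rfl
        exact h (Dvd.intro _ rfl)
      have h7 : p ≠ 3 := by
        rintro rfl
        exact h (Dvd.dvd.mul_left (Dvd.dvd.mul_right (dvd_pow_self 3 (by norm_num)) _) _)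
      have hm : ¬ (p : ℤ) ∣ m := fun h' =>
        h (Dvd.dvd.mul_left (Dvd.dvd.mul_left (dvd_pow (dvd_pow h' (by norm_num)) (by norm_num)) _) _)
      rw [count_eq hp h2 h7 hm]
  · rw [if_neg (fun h => hp h.1), if_neg (fun h => hp h.1)]

end Pool.Agent.L0h1.F3R
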