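import Pool.Agent.L0h1.KD.Rank
import Pool.Agent.L0h86.F3.Mat

/-!
# The rank form for the curves `y² = x³ + D³`, `D ≡ 1 mod 4`
-/

set_option autoImplicit false
set_option maxHeartbeats 4000000
set_option linter.unusedVariables false

open scoped Classical

namespace Pool.Agent.L0h1.F3R

open Pool.Agent.Y698 Pool.Agent.Y698.SG Pool.Agent.L0h23.EV Pool.Agent.L0h1.KD
open Pool.Agent.L0h86.F1 (WM AdmM M1 M2)
open H667R3 Pool.Agent.W192.HK Pool.Agent.TH936.CM Pool.Agent.TH936.PU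
open Pool.Agent.Y696 Pool.Agent.Y715.T.Lat
open Pool.Agent.L0h86.F3 Pool.Agent.L0h4.T3
open WeierstrassCurve

lemma disc0 (b : ℤ) : 2 * (-4 * (0 : ℤ) ^ 3 - 27 * b ^ 2) = -(2 * (3 ^ 3 * b ^ 2)) := by ring

/-- the incomplete `L`-series of the twist -/
theorem lfunM {D : ℕ} (h : AdmM D) {f : ℂ → ℂ}
    (g2 : ∀ z : ℂ, 3 / 2 < z.re → HasProd (fun p : Nat.Primes =>
      (1 - b6 p * (chM D (p : ℕ) * ((p : ℕ) : ℂ) ^ (-z)) +
      e6 p * (chM D (p : ℕ) * ((p : ℕ) : ℂ) ^ (-z)) ^ 2)⁻¹) (f z)) :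
    ∀ s : ℂ, (3 : ℝ) / 2 < s.re → HasProd (tg 0 ((D : ℤ) ^ 3) s) (f s) := by
  intro s hs
  have h1 := g2 s hs
  set n : ℤ := (D : ℤ) with hn
  have h4 : ∀ p : Nat.Primes, (1 - b6 p * (chM D (p : ℕ) * ((p : ℕ) : ℂ) ^ (-s)) +
        e6 p * (chM D (p : ℕ) * ((p : ℕ) : ℂ) ^ (-s)) ^ 2)⁻¹ =
        tg 0 (n ^ 3) s p := by
    intro P
    have hp : (P : ℕ).Prime := P.2
    revert hp
    generalize (P : ℕ) = p
    intro hp
    have hpi : Prime (p : ℤ) := Nat.prime_iff_prime_int.1 hp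
    by_cases hb : p = 2 ∨ p = 3 ∨ p ∣ D
    · have hR : tg 0 (n ^ 3) s p = 1 := by
        unfold tg
        refine if_neg ?_
        rintro ⟨_, h⟩
        apply h
        rw [disc0, dvd_neg]
        rcases hb with h4 | h4 | h4
        · subst h4
          exact Dvd.intro _ rfl
        · subst h4
          exact Dvd.dvd.mul_left (Dvd.dvd.mul_right (dvd_pow (by norm_num) (by norm_num)) _) _
        · refine Dvd.dvd.mul_left (Dvd.dvd.mul_left (dvd_pow (dvd_pow ?_ (by norm_num))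
            (by norm_num)) _) _
          rw [hn]
          exact_mod_cast h4
      rw [hR]
      rcases hb with h4 | h4 | h4
      · subst h4
        have h5 : b6 2 = 0 := if_pos (Or.inl rfl)
        have h6 : e6 2 = 0 := if_pos (Or.inl rfl)
        rw [h5, h6]
        simp
      · subst h4
        have h5 : b6 3 = 0 := if_pos (Or.inr rfl)
        have h6 : e6 3 = 0 := if_pos (Or.inr rfl)
        rw [h5, h6]
        simp
      · have h6 : chM D p = 0 := by
          unfold chM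
          have hne : NeZero p := ⟨hp.ne_zero⟩
          rw [jacobiSym.eq_zero_iff_not_coprime]
          intro hc
          have h4 : p ∣ Int.gcd (D : ℤ) (p : ℤ) := by
            rw [Int.gcd_natCast_natCast]
            exact Nat.dvd_gcd h4 dvd_rfl
          rw [hc] at h4
          exact hp.one_lt.ne' (Nat.dvd_one.1 h4)
        rw [h6]
        simp
    · push Not at hb
      obtain ⟨h2, h7, h3⟩ := hb
      have g2' : ¬ (p : ℤ) ∣ 2 := by
        intro h
        have : p ∣ 2 := by exact_mod_cast h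
        exact h2 ((Nat.prime_dvd_prime_iff_eq hp Nat.prime_two).1 this)
      have g7' : ¬ (p : ℤ) ∣ 3 := by
        intro h
        have : p ∣ 3 := by exact_mod_cast h
        exact h7 ((Nat.prime_dvd_prime_iff_eq hp (by norm_num)).1 this)
      have h3' : ¬ (p : ℤ) ∣ n := by
        rw [hn]
        exact_mod_cast h3
      have hcond : p.Prime ∧ ¬ ((p : ℤ) ∣ 2 * (-4 * (0 : ℤ) ^ 3 - 27 * (n ^ 3) ^ 2)) := by
        refine ⟨hp, ?_⟩
        rw [disc0, dvd_neg]
        intro h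
        rcases hpi.dvd_or_dvd h with h5 | h5
        · exact g2' h5
        · rcases hpi.dvd_or_dvd h5 with h6 | h6
          · exact g7' (hpi.dvd_of_dvd_pow h6)
          · exact h3' (hpi.dvd_of_dvd_pow (hpi.dvd_of_dvd_pow h6))
      unfold tg
      rw [if_pos hcond]
      have := Fact.mk hp
      have ht := trace_M (ZMod p) hp h2 h7 (Nat.card_zmod p) h3
      have hc' : Nat.card (AP (WM (ZMod p) D)) = Nat.card {q : ZMod p × ZMod p //
          q.2 ^ 2 = q.1 ^ 3 + ((0 : ℤ) : ZMod p) * q.1 + ((n ^ 3 : ℤ) : ZMod p)} := by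
        refine Nat.card_congr (Equiv.subtypeEquivRight fun q => ?_)
        rw [WeierstrassCurve.Affine.equation_iff]
        unfold WM
        simp only
        rw [hn]
        push_cast
        constructor
        · intro h
          linear_combination h
        · intro h
          linear_combination h
      rw [← hc']
      rw [Nat.card_zmod] at ht
      have hec : e6 p = (p : ℤ) := if_neg (by rintro (h | h) <;> contradiction)
      have hsq : ((chM D p : ℤ) : ℂ) ^ 2 = 1 := by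
        unfold chM
        rw [← Int.cast_pow, jacobiSym.sq_one, Int.cast_one]
        rw [Int.gcd_natCast_natCast]
        exact ((hp.coprime_iff_not_dvd).2 h3).symm
      have h9 : (p : ℂ) ^ (1 - 2 * s) = (p : ℂ) * ((p : ℂ) ^ (-s)) ^ 2 := by
        have hp0 : (p : ℂ) ≠ 0 := by exact_mod_cast hp.ne_zero
        rw [← Complex.cpow_nat_mul, sub_eq_add_neg, Complex.cpow_add _ _ hp0, Complex.cpow_one]
        congr 2
        push_cast
        ring
      have h10 : ((p : ℂ) - (Nat.card (AP (WM (ZMod p) D)) : ℂ)) = chM D p * b6 p := by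
        exact_mod_cast congrArg (Int.cast (R := ℂ)) ht
      rw [h9, h10, hec, mul_pow, hsq]
      congr 1
      push_cast
      ring
  have h5 : HasProd (tg 0 (n ^ 3) s ∘ ((↑) : {p : ℕ | p.Prime} → ℕ)) (f s) := by
    refine (congrArg (fun g => HasProd g (f s)) (funext fun p => ?_)).mp h1
    exact h4 p
  refine (hasProd_subtype_iff_of_mulSupport_subset ?_).1 h5
  intro m hm
  rw [Function.mem_mulSupport] at hm
  by_contra h6
  apply hm
  unfold tg
  rw [if_neg]
  rintro ⟨h7, _⟩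
  exact h6 h7

/-- the points of the short equation -/
theorem fin_WM {D : ℕ} (h : Finite (WM ℚ D).toAffine.Point) :
    Finite (WeierstrassCurve.Affine.Point (WeierstrassCurve.toAffine
      ({ a₁ := 0, a₂ := 0, a₃ := 0, a₄ := ((0 : ℤ) : ℚ),
         a₆ := (((D : ℤ) ^ 3 : ℤ) : ℚ) } : WeierstrassCurve ℚ))) := by
  have e : (⟨0, 0, 0, ((0 : ℤ) : ℚ), (((D : ℤ) ^ 3 : ℤ) : ℚ)⟩ :
      WeierstrassCurve ℚ) = WM ℚ D := by
    unfold WM
    push_cast
    rfl
  rw [e]
  exact h

/-- **the rank form** -/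
theorem rank_M {D : ℕ} (h : AdmM D) (h1 : D ≠ 1) (hdet : (mM D).det ≠ 0) :
    ∃ F : ℂ → ℂ, Differentiable ℂ F ∧
      (∀ s : ℂ, (3 : ℝ) / 2 < s.re → HasProd (tg 0 ((D : ℤ) ^ 3) s) (F s)) ∧
      F 1 ≠ 0 ∧
      Finite (WeierstrassCurve.Affine.Point (WeierstrassCurve.toAffine
      ({ a₁ := 0, a₂ := 0, a₃ := 0, a₄ := ((0 : ℤ) : ℚ),
         a₆ := (((D : ℤ) ^ 3 : ℤ) : ℚ) } : WeierstrassCurve ℚ))) := by
  obtain ⟨ϖ, hd⟩ := adm_exists_dt h
  have hcr := (cr_iff hd (adm_prod h) h.m4).2 hdet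
  obtain ⟨-, -, -, c4, -⟩ := coreM h h1 hd
  obtain ⟨F, hF, hsum, hval⟩ := t_VAL _ _ ϖ D hd (adm_prod h) ((adm_ne h) h1)
  obtain ⟨hprod, hser⟩ := t_DEUR h hsum
  have hreal : (starRingEnd ℂ) (F 1) = F 1 := conj_val hF (fun k => (WM ℚ D).LFunction k) hser
  refine ⟨F, hF, lfunM h hprod, fun h0 => ?_, fin_WM (c4 hcr).1⟩
  obtain ⟨Ω, hΩ, hC⟩ := exists_cur
  refine exists_val2 fun Γ _ v hv => ?_
  obtain ⟨s, hs, hvs⟩ := hval v hv _ Ω hC
  rw [hreal] at hvs
  have key := v_quoM h hv hC hvs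
  have hs1 : v s = 1 := (hs.unit_iff hv).2 hcr
  rw [hs1, h0] at key
  unfold quoM at key
  rw [zero_mul, zero_div, map_zero] at key
  exact zero_ne_one key

end Pool.Agent.L0h1.F3R
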