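import Pool.Agent.L0h1.F3R.AllN
import Pool.Agent.L0h86.F5.Def
import Pool.Agent.L0h4.T4.EulC

/-!
# The rank form for the curves `y² = x³ - 8 m³`, `m` odd
-/

set_option autoImplicit false
set_option maxHeartbeats 4000000
set_option linter.unusedVariables false

open scoped Classical

namespace Pool.Agent.L0h1.F3R

open Pool.Agent.Y698 Pool.Agent.Y698.SG Pool.Agent.L0h23.EV Pool.Agent.L0h1.KD
open Pool.Agent.L0h86.F1 (AdmM M1 M2)
open H667R3 Pool.Agent.W192.HK Pool.Agent.TH936.CM Pool.Agent.TH936.PU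
open Pool.Agent.Y696 Pool.Agent.Y715.T.Lat
open Pool.Agent.L0h86.F3 Pool.Agent.L0h4.T3 Pool.Agent.L0h4.T4 Pool.Agent.L0h86.F5
open Pool.Agent.TH841.NF.D (Sha)
open WeierstrassCurve

/-- the incomplete `L`-series of the twist -/
theorem lfunC {D : ℕ} (h : AdmC D) {f : ℂ → ℂ}
    (g2 : ∀ z : ℂ, 3 / 2 < z.re → HasProd (fun p : Nat.Primes =>
      (1 - b6 p * (chC D (p : ℕ) * ((p : ℕ) : ℂ) ^ (-z)) +
      e6 p * (chC D (p : ℕ) * ((p : ℕ) : ℂ) ^ (-z)) ^ 2)⁻¹) (f z)) :
    ∀ s : ℂ, (3 : ℝ) / 2 < s.re → HasProd (tg 0 ((-2 * (D : ℤ)) ^ 3) s) (f s) := by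
  intro s hs
  have h1 := g2 s hs
  set n : ℤ := -2 * (D : ℤ) with hn
  have h4 : ∀ p : Nat.Primes, (1 - b6 p * (chC D (p : ℕ) * ((p : ℕ) : ℂ) ^ (-s)) +
        e6 p * (chC D (p : ℕ) * ((p : ℕ) : ℂ) ^ (-s)) ^ 2)⁻¹ =
        tg 0 (n ^ 3) s p := by
    intro P
    have hp : (P : ℕ).Prime := P.2
    revert hp
    generalize (P : ℕ) = p
    intro hp
    have hpi : Prime (p : ℤ) := Nat.prime_iff_prime_int.1 hp
    by_cases hb : p = 2 ∨ p = 3 ∨ p ∣ D
    · have hR : tg 0 (n ^ 3) s p = 1 := by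
        unfold tg
        refine if_neg ?_
        rintro ⟨_, h⟩
        apply h
        rw [disc0, dvd_neg]
        rcases hb with h4 | h4 | h4
        · subst h4
          exact Dvd.intro _ rfl
        · subst h4
          exact Dvd.dvd.mul_left (Dvd.dvd.mul_right (dvd_pow (by norm_num) (by norm_num)) _) _
        · refine Dvd.dvd.mul_left (Dvd.dvd.mul_left (dvd_pow (dvd_pow ?_ (by norm_num))
            (by norm_num)) _) _
          rw [hn]
          exact Dvd.dvd.mul_left (by exact_mod_cast h4) _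
      rw [hR]
      rcases hb with h4 | h4 | h4
      · subst h4
        have h5 : b6 2 = 0 := if_pos (Or.inl rfl)
        have h6 : e6 2 = 0 := if_pos (Or.inl rfl)
        rw [h5, h6]
        simp
      · subst h4
        have h5 : b6 3 = 0 := if_pos (Or.inr rfl)
        have h6 : e6 3 = 0 := if_pos (Or.inr rfl)
        rw [h5, h6]
        simp
      · have h6 : chC D p = 0 := by
          unfold chC
          have hne : NeZero p := ⟨hp.ne_zero⟩
          rw [jacobiSym.eq_zero_iff_not_coprime]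
          intro hc
          have h5 : (p : ℤ) ∣ (Int.gcd (-2 * (D : ℤ)) (p : ℤ) : ℤ) :=
            Int.dvd_coe_gcd (Dvd.dvd.mul_left (by exact_mod_cast h4) _) dvd_rfl
          rw [hc] at h5
          have h7 : p ∣ 1 := by exact_mod_cast h5
          exact hp.one_lt.ne' (Nat.dvd_one.1 h7)
        rw [h6]
        simp
    · push Not at hb
      obtain ⟨h2, h7, h3⟩ := hb
      have g2' : ¬ (p : ℤ) ∣ 2 := by
        intro h
        have : p ∣ 2 := by exact_mod_cast h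
        exact h2 ((Nat.prime_dvd_prime_iff_eq hp Nat.prime_two).1 this)
      have g7' : ¬ (p : ℤ) ∣ 3 := by
        intro h
        have : p ∣ 3 := by exact_mod_cast h
        exact h7 ((Nat.prime_dvd_prime_iff_eq hp (by norm_num)).1 this)
      have h3' : ¬ (p : ℤ) ∣ n := by
        rw [hn]
        intro h
        rcases hpi.dvd_or_dvd h with h | h
        · rw [dvd_neg] at h
          exact g2' h
        · exact h3 (by exact_mod_cast h)
      have hcond : p.Prime ∧ ¬ ((p : ℤ) ∣ 2 * (-4 * (0 : ℤ) ^ 3 - 27 * (n ^ 3) ^ 2)) := by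
        refine ⟨hp, ?_⟩
        rw [disc0, dvd_neg]
        intro h
        rcases hpi.dvd_or_dvd h with h5 | h5
        · exact g2' h5
        · rcases hpi.dvd_or_dvd h5 with h6 | h6
          · exact g7' (hpi.dvd_of_dvd_pow h6)
          · exact h3' (hpi.dvd_of_dvd_pow (hpi.dvd_of_dvd_pow h6))
      unfold tg
      rw [if_pos hcond]
      have := Fact.mk hp
      have ht := trace_C (ZMod p) hp h2 h7 (Nat.card_zmod p) h3
      have hc' : Nat.card (AP (WC (ZMod p) D)) = Nat.card {q : ZMod p × ZMod p //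
          q.2 ^ 2 = q.1 ^ 3 + ((0 : ℤ) : ZMod p) * q.1 + ((n ^ 3 : ℤ) : ZMod p)} := by
        refine Nat.card_congr (Equiv.subtypeEquivRight fun q => ?_)
        rw [WeierstrassCurve.Affine.equation_iff]
        unfold WC
        simp only
        rw [hn]
        push_cast
        constructor
        · intro h
          linear_combination h
        · intro h
          linear_combination h
      rw [← hc']
      rw [Nat.card_zmod] at ht
      have hec : e6 p = (p : ℤ) := if_neg (by rintro (h | h) <;> contradiction)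
      have hsq : ((chC D p : ℤ) : ℂ) ^ 2 = 1 := by
        exact_mod_cast chC_sq hp h2 h3
      have h9 : (p : ℂ) ^ (1 - 2 * s) = (p : ℂ) * ((p : ℂ) ^ (-s)) ^ 2 := by
        have hp0 : (p : ℂ) ≠ 0 := by exact_mod_cast hp.ne_zero
        rw [← Complex.cpow_nat_mul, sub_eq_add_neg, Complex.cpow_add _ _ hp0, Complex.cpow_one]
        congr 2
        push_cast
        ring
      have h10 : ((p : ℂ) - (Nat.card (AP (WC (ZMod p) D)) : ℂ)) = chC D p * b6 p := by
        exact_mod_cast congrArg (Int.cast (R := ℂ)) ht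
      rw [h9, h10, hec, mul_pow, hsq]
      congr 1
      push_cast
      ring
  have h5 : HasProd (tg 0 (n ^ 3) s ∘ ((↑) : {p : ℕ | p.Prime} → ℕ)) (f s) := by
    refine (congrArg (fun g => HasProd g (f s)) (funext fun p => ?_)).mp h1
    exact h4 p
  refine (hasProd_subtype_iff_of_mulSupport_subset ?_).1 h5
  intro m hm
  rw [Function.mem_mulSupport] at hm
  by_contra h6
  apply hm
  unfold tg
  rw [if_neg]
  rintro ⟨h7, _⟩
  exact h6 h7

/-- the points of the short equation -/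
theorem fin_WC {D : ℕ} (h : Finite (WC ℚ D).toAffine.Point) :
    Finite (WeierstrassCurve.Affine.Point (WeierstrassCurve.toAffine
      ({ a₁ := 0, a₂ := 0, a₃ := 0, a₄ := ((0 : ℤ) : ℚ),
         a₆ := (((-2 * (D : ℤ)) ^ 3 : ℤ) : ℚ) } : WeierstrassCurve ℚ))) := by
  have e : (⟨0, 0, 0, ((0 : ℤ) : ℚ), (((-2 * (D : ℤ)) ^ 3 : ℤ) : ℚ)⟩ :
      WeierstrassCurve ℚ) = WC ℚ D := by
    unfold WC
    push_cast
    ext
    · rfl
    · rfl
    · rfl
    · rfl
    · simp only
      ring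
  rw [e]
  exact h

/-! ### the primes -/

lemma admC_q {D : ℕ} (h : AdmC D) : ∀ q ∈ M2 D, InQ q := fun q hq =>
  ⟨Nat.prime_of_mem_primeFactors (Finset.mem_filter.1 hq).1, by
    have h1 := Nat.dvd_of_mem_primeFactors (Finset.mem_filter.1 hq).1
    have h2 := h.m2
    by_contra h3
    have h4 : 2 ∣ q := by omega
    have h5 := h4.trans h1
    omega, (Finset.mem_filter.1 hq).2⟩

lemma admC_p {D : ℕ} : ∀ p ∈ M1 D, SpQ p := fun p hp =>
  ⟨Nat.prime_of_mem_primeFactors (Finset.mem_filter.1 hp).1, (Finset.mem_filter.1 hp).2⟩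

lemma admC_union {D : ℕ} (h : AdmC D) : M2 D ∪ M1 D = D.primeFactors := by
  ext p
  unfold M1 M2
  rw [Finset.mem_union, Finset.mem_filter, Finset.mem_filter]
  constructor
  · rintro (h1 | h1)
    · exact h1.1
    · exact h1.1
  · intro hp
    have hpp := Nat.prime_of_mem_primeFactors hp
    have h3 : ¬ 3 ∣ p := by
      intro hc
      have : 3 = p := (Nat.prime_dvd_prime_iff_eq Nat.prime_three hpp).1 hc
      exact h.n3 (this ▸ Nat.dvd_of_mem_primeFactors hp)
    have h4 : p % 3 = 2 ∨ p % 3 = 1 := by omega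
    rcases h4 with h4 | h4
    · exact Or.inl ⟨hp, h4⟩
    · exact Or.inr ⟨hp, h4⟩

lemma admC_prod {D : ℕ} (h : AdmC D) : D = ∏ q ∈ M2 D ∪ M1 D, q := by
  rw [admC_union h, Nat.prod_primeFactors_of_squarefree h.sf]

lemma admC_ne {D : ℕ} (h : AdmC D) (h1 : D ≠ 1) : (M2 D ∪ M1 D).Nonempty := by
  rw [admC_union h]
  exact Nat.nonempty_primeFactors.2 (by
    have := h.sf.ne_zero
    omega)

lemma admC_exists_dt {D : ℕ} (h : AdmC D) : ∃ ϖ : ℕ → eis, Dt (M2 D) (M1 D) ϖ :=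
  Pool.Agent.L0h80.F3.exists_Dt (admC_q h) admC_p

/-- **the rank form** -/
theorem rank_C (hV : S_VALC) (hDe : S_DESC) {D : ℕ} (h : AdmC D) (h1 : D ≠ 1) {ϖ : ℕ → eis}
    (hd : Dt (M2 D) (M1 D) ϖ) (hcr : Cr8 (M2 D) (M1 D) ϖ D) : RZ (-2 * (D : ℤ)) := by
  obtain ⟨k1, k2⟩ := hDe (M2 D) (M1 D) ϖ D hd (admC_prod h) hcr
  obtain ⟨F, hF, hsum, hval⟩ := hV _ _ ϖ D hd (admC_prod h) ((admC_ne h) h1)
  obtain ⟨hprod, hser⟩ := t_DEURC D h F hsum
  refine ⟨F, hF, lfunC h hprod, fun h0 => ?_, fin_WC k1⟩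
  obtain ⟨Ω, hΩ, hC⟩ := exists_cur
  refine exists_val2 fun Γ _ v hv => ?_
  obtain ⟨s, hs, hvs⟩ := hval v hv _ Ω hC
  have hs1 : v s = 1 := (hs.unit_iff hv).2 hcr
  have h20 : v 2 ≠ 0 := (v.ne_zero_iff).2 two_ne_zero
  rw [h0, hs1, map_zero, zero_div, map_zero, mul_one, zero_pow (by norm_num), zero_mul] at hvs
  exact pow_ne_zero _ (pow_ne_zero _ h20) hvs.symm

/-- the algebraic criterion -/
theorem tt_C (hDe : S_DESC) (hCn : S_CNVC) {D : ℕ} (h : AdmC D) {ϖ : ℕ → eis}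
    (hd : Dt (M2 D) (M1 D) ϖ) :
    (Finite (WC ℚ D).toAffine.Point ∧ ∀ x : Sha (WC ℚ D), x + x = 0 → x = 0) ↔
      Cr8 (M2 D) (M1 D) ϖ D := by
  constructor
  · rintro ⟨h2, h3⟩
    by_contra h4
    obtain ⟨y, hy, hy2⟩ := hCn _ _ ϖ D hd (admC_prod h) h4 h2
    exact hy (h3 y hy2)
  · intro hc
    obtain ⟨h2, h3⟩ := hDe _ _ ϖ D hd (admC_prod h) hc
    refine ⟨h2, fun x hx => h3 x 1 ?_⟩
    rw [pow_one, two_nsmul]
    exact hx

/-- the rank form for `-2 m` and `6 m` -/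
theorem rank_C3 (hV : S_VALC) (hDe : S_DESC) {D : ℕ} (h : AdmC D) (h1 : D ≠ 1) {ϖ : ℕ → eis}
    (hd : Dt (M2 D) (M1 D) ϖ) (hcr : Cr8 (M2 D) (M1 D) ϖ D) {m : ℤ}
    (hm : m = -2 * D ∨ m = 6 * D) : RZ m := by
  have a1 := rank_C hV hDe h h1 hd hcr
  have hD0 : (D : ℤ) ≠ 0 := by exact_mod_cast h.sf.ne_zero
  rcases hm with rfl | rfl
  · exact a1
  · have := RZ_three (mul_ne_zero (by norm_num) hD0) a1
    have e : (-3 * (-2 * (D : ℤ))) = 6 * D := by ring
    rwa [e] at this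

end Pool.Agent.L0h1.F3R
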