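import Pool.Agent.L0h1.F3R.AllN
import Pool.Agent.L0h23.FZ.Fin
import Pool.Agent.L0h61.T4.Cvn

/-!
# The algebraic criterion for `y² = x³ - D³`
-/

set_option autoImplicit false
set_option maxHeartbeats 4000000
set_option linter.unusedSectionVars false

open scoped Classical

namespace Pool.Agent.L0h1.F3R

open Pool.Agent.L0h1.KD Pool.Agent.L0h86.F3 Pool.Agent.L0h4.T4
open Pool.Agent.L0h86.F1 (WM AdmM M1 M2)
open Pool.Agent.TH841.NF.D (Sha)
open WeierstrassCurve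

/-- **the algebraic criterion** -/
theorem tt_mN {D : ℕ} (h : AdmM D) (h1 : D ≠ 1) :
    (Finite (WN ℚ D).toAffine.Point ∧ ∀ x : Sha (WN ℚ D), x + x = 0 → x = 0) ↔
      (mM D).det ≠ 0 := by
  obtain ⟨ϖ, hd⟩ := adm_exists_dt h
  rw [← cr_iff hd (adm_prod h) h.m4]
  constructor
  · rintro ⟨h2, h3⟩
    by_contra h4
    obtain ⟨y, hy, hy2⟩ := Pool.Agent.L0h61.T4.convN hd (adm_prod h) h.m4 h4 h2
    exact hy (h3 y hy2)
  · intro hc
    obtain ⟨h2, h3⟩ := Pool.Agent.L0h23.FZE.t_DESN (M2 D) (M1 D) ϖ D hd (adm_prod h) h.m4 hc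
    refine ⟨h2, fun x hx => h3 x 1 ?_⟩
    rw [pow_one, two_nsmul]
    exact hx

/-- **the rank form for the twists by `D`, `-D`, `3 D`, `-3 D`** -/
theorem rank_all {D : ℕ} (h : AdmM D) (h1 : D ≠ 1) (hdet : (mM D).det ≠ 0) {m : ℤ}
    (hm : m = D ∨ m = -D ∨ m = 3 * D ∨ m = -3 * D) : RZ m :=
  rank_N3 Pool.Agent.L0h23.FZE.t_DESN h h1 hdet hm

end Pool.Agent.L0h1.F3R
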