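import Pool.Agent.L0h1.F3R.RankC
import Pool.Agent.L0h1.F3R.TtN
import Pool.Agent.L0h4.T5.VnC
import Pool.Agent.L0h4.T5.MatC
import Pool.Agent.L0h23.FC.Td
import Pool.Agent.L0h61.T5.Cvc

/-!
# The algebraic criterion and the rank form for `y² = x³ - 8 m³`
-/

set_option autoImplicit false
set_option maxHeartbeats 4000000
set_option linter.unusedSectionVars false

open scoped Classical

namespace Pool.Agent.L0h1.F3R

open Pool.Agent.L0h1.KD Pool.Agent.L0h86.F3 Pool.Agent.L0h4.T4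
open Pool.Agent.L0h86.F1 (WM AdmM M1 M2)
open Pool.Agent.TH841.NF.D (Sha)
open Pool.Agent.L0h4.T5 (mC cr8_iff)
open WeierstrassCurve

/-- **the algebraic criterion** -/
theorem tt_mC {m : ℕ} (h : AdmC m) :
    (Finite (WC ℚ m).toAffine.Point ∧ ∀ x : Sha (WC ℚ m), x + x = 0 → x = 0) ↔
      (mC (2 * m)).det ≠ 0 := by
  obtain ⟨ϖ, hd⟩ := admC_exists_dt h
  rw [← cr8_iff hd (admC_prod h)]
  exact tt_C Pool.Agent.L0h23.FCE.t_DESC Pool.Agent.L0h61.T5.t_CNVC h hd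

/-- **the rank form for the twists by `-2 m` and `6 m`** -/
theorem rank_allC {m : ℕ} (h : AdmC m) (h1 : m ≠ 1) (hdet : (mC (2 * m)).det ≠ 0) {n : ℤ}
    (hn : n = -2 * m ∨ n = 6 * m) : RZ n := by
  obtain ⟨ϖ, hd⟩ := admC_exists_dt h
  exact rank_C3 Pool.Agent.L0h4.T5.t_VALC Pool.Agent.L0h23.FCE.t_DESC h h1 hd
    ((cr8_iff hd (admC_prod h)).2 hdet) hn

end Pool.Agent.L0h1.F3R
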